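import Pool.Agent.H54.Bryl.Vec

set_option autoImplicit false

/-! Coding of the vectors of `(ZMod 2)^8` by natural numbers below 256. -/

namespace Pool.Agent.H54.Bryl

open Set Submodule

/-- The ambient vector space. -/
abbrev W := Fin 8 → ZMod 2

/-- The vector with code `n`. -/
def vec (n : ℕ) : W := fun i => if n.testBit i then 1 else 0

theorem vec_xor (a b : ℕ) : vec (a ^^^ b) = vec a + vec b := by
  ext i
  simp only [vec, Nat.testBit_xor, Pi.add_apply]
  cases a.testBit i <;> cases b.testBit i <;> decide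

theorem vec_zero : vec 0 = 0 := by
  ext i
  simp [vec]

theorem vec_inj {a b : ℕ} (ha : a < 256) (hb : b < 256) (h : vec a = vec b) : a = b := by
  apply Nat.eq_of_testBit_eq
  intro i
  by_cases hi : i < 8
  · have h1 := congrFun h ⟨i, hi⟩
    simp only [vec] at h1
    revert h1
    cases a.testBit i <;> cases b.testBit i <;> decide
  · have h2 : (256 : ℕ) ≤ 2 ^ i := by
      calc (256 : ℕ) = 2 ^ 8 := by norm_num
        _ ≤ 2 ^ i := Nat.pow_le_pow_right (by norm_num) (by omega)
    rw [Nat.testBit_lt_two_pow (lt_of_lt_of_le ha h2),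
      Nat.testBit_lt_two_pow (lt_of_lt_of_le hb h2)]

theorem vec_surj (x : W) : ∃ n < 256, vec n = x := by
  have hinj : Function.Injective (fun n : Fin 256 => vec n.1) := by
    intro a b h
    exact Fin.ext (vec_inj a.2 b.2 h)
  have hbij := (Fintype.bijective_iff_injective_and_card _).2 ⟨hinj, by
    simp [W, Fintype.card_pi, ZMod.card]⟩
  obtain ⟨n, hn⟩ := hbij.2 x
  exact ⟨n.1, n.2, hn⟩

/-- The code of a vector. -/
noncomputable def unvec (x : W) : ℕ := (vec_surj x).choose

theorem unvec_lt (x : W) : unvec x < 256 := (vec_surj x).choose_spec.1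
theorem vec_unvec (x : W) : vec (unvec x) = x := (vec_surj x).choose_spec.2
theorem unvec_vec {n : ℕ} (hn : n < 256) : unvec (vec n) = n :=
  vec_inj (unvec_lt _) hn (vec_unvec _)

theorem unvec_add (x y : W) : unvec (x + y) = unvec x ^^^ unvec y := by
  apply vec_inj (unvec_lt _)
  · exact Nat.xor_lt_two_pow (n := 8) (unvec_lt x) (unvec_lt y)
  · rw [vec_unvec, vec_xor, vec_unvec, vec_unvec]

theorem unvec_zero : unvec 0 = 0 := by
  rw [← vec_zero, unvec_vec (by norm_num)]

/-- The linear map with the given columns, on codes. -/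
def app : List ℕ → ℕ → ℕ
  | [], _ => 0
  | c :: cs, n => ((n % 2) * c) ^^^ app cs (n / 2)

theorem mod_mul_xor (a b c : ℕ) : ((a ^^^ b) % 2) * c = ((a % 2) * c) ^^^ ((b % 2) * c) := by
  rw [Nat.xor_mod_two_eq]
  rcases Nat.mod_two_eq_zero_or_one a with ha | ha <;>
    rcases Nat.mod_two_eq_zero_or_one b with hb | hb <;>
    simp [Nat.add_mod, ha, hb]

theorem app_xor (cs : List ℕ) (a b : ℕ) : app cs (a ^^^ b) = app cs a ^^^ app cs b := by
  induction cs generalizing a b with
  | nil => simp [app]
  | cons c cs ih =>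
    simp only [app]
    rw [mod_mul_xor, Nat.xor_div_two, ih]
    ac_rfl

theorem app_zero (cs : List ℕ) : app cs 0 = 0 := by
  induction cs with
  | nil => rfl
  | cons c cs ih => simp [app, ih]

theorem app_lt (cs : List ℕ) (h : ∀ c ∈ cs, c < 256) (n : ℕ) : app cs n < 256 := by
  induction cs generalizing n with
  | nil => simp [app]
  | cons c cs ih =>
    simp only [app]
    refine Nat.xor_lt_two_pow (n := 8) ?_ (ih (fun c hc => h c (List.mem_cons_of_mem _ hc)) _)
    have hc := h c List.mem_cons_self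
    rcases Nat.mod_two_eq_zero_or_one n with hn | hn <;> rw [hn] <;> omega

theorem app_append_single (cs : List ℕ) (w n : ℕ) :
    app (cs ++ [w]) n = app cs n ^^^ ((n / 2 ^ cs.length) % 2 * w) := by
  induction cs generalizing n with
  | nil => simp [app]
  | cons c cs ih =>
    simp only [List.cons_append, app, List.length_cons]
    rw [ih, Nat.div_div_eq_div_mul, ← pow_succ', Nat.xor_assoc]

/-- The linear map with the given columns. -/
noncomputable def lin (cs : List ℕ) : W →ₗ[ZMod 2] W :=
  AddMonoidHom.toZModLinearMap 2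
    { toFun := fun x => vec (app cs (unvec x))
      map_zero' := by rw [unvec_zero, app_zero, vec_zero]
      map_add' := fun x y => by rw [unvec_add, app_xor, vec_xor] }

theorem lin_vec (cs : List ℕ) {n : ℕ} (hn : n < 256) : lin cs (vec n) = vec (app cs n) := by
  show vec (app cs (unvec (vec n))) = _
  rw [unvec_vec hn]

/-- Dot product of two codes with `k` bits. -/
def parA : ℕ → ℕ → ℕ → ℕ
  | 0, _, _ => 0
  | k + 1, f, n => ((n % 2) * (f % 2)) ^^^ parA k (f / 2) (n / 2)

theorem parA_xor (k f a b : ℕ) : parA k f (a ^^^ b) = parA k f a ^^^ parA k f b := by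
  induction k generalizing f a b with
  | zero => simp [parA]
  | succ k ih =>
    simp only [parA]
    rw [mod_mul_xor, Nat.xor_div_two, ih]
    ac_rfl

theorem parA_zero (k f : ℕ) : parA k f 0 = 0 := by
  induction k generalizing f with
  | zero => rfl
  | succ k ih => simp [parA, ih]

theorem parA_lt (k f n : ℕ) : parA k f n < 2 := by
  induction k generalizing f n with
  | zero => simp [parA]
  | succ k ih =>
    simp only [parA]
    refine Nat.xor_lt_two_pow (n := 1) ?_ (ih _ _)
    rcases Nat.mod_two_eq_zero_or_one n with hn | hn <;>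
      rcases Nat.mod_two_eq_zero_or_one f with hf | hf <;> rw [hn, hf] <;> norm_num

/-- The functional with code `f`, on codes. -/
def par (f n : ℕ) : ℕ := parA 8 f n

theorem cast_xor (a b : ℕ) : ((a ^^^ b : ℕ) : ZMod 2) = (a : ZMod 2) + b := by
  rw [← Nat.cast_add, ZMod.natCast_eq_natCast_iff]
  exact Nat.xor_mod_two_eq

/-- The functional with code `f`. -/
noncomputable def phi (f : ℕ) : W →ₗ[ZMod 2] ZMod 2 :=
  AddMonoidHom.toZModLinearMap 2
    { toFun := fun x => ((par f (unvec x) : ℕ) : ZMod 2)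
      map_zero' := by rw [unvec_zero, par, parA_zero, Nat.cast_zero]
      map_add' := fun x y => by rw [unvec_add, par, parA_xor, cast_xor]; rfl }

theorem phi_vec (f : ℕ) {n : ℕ} (hn : n < 256) : phi f (vec n) = ((par f n : ℕ) : ZMod 2) := by
  show ((par f (unvec (vec n)) : ℕ) : ZMod 2) = _
  rw [unvec_vec hn]

theorem par_cases (f n : ℕ) : par f n = 0 ∨ par f n = 1 := by
  have := parA_lt 8 f n
  unfold par
  omega

theorem phi_vec_zero (f : ℕ) {n : ℕ} (hn : n < 256) : phi f (vec n) = 0 ↔ par f n = 0 := by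
  rw [phi_vec f hn]
  rcases par_cases f n with h | h <;> rw [h] <;> simp

theorem vec_single (i : Fin 8) : vec (2 ^ i.1) = Pi.single i 1 := by
  revert i
  decide

theorem lin_ext {X : Type} [AddCommGroup X] [Module (ZMod 2) X] (f g : W →ₗ[ZMod 2] X)
    (h : ∀ i : Fin 8, f (vec (2 ^ i.1)) = g (vec (2 ^ i.1))) : f = g := by
  apply LinearMap.pi_ext'
  intro i
  apply LinearMap.ext_ring
  have h1 := h i
  rw [vec_single] at h1
  exact h1

theorem par_pow : ∀ f < 256, ∀ i < 8, par f (2 ^ i) = if f.testBit i then 1 else 0 := by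
  decide +kernel

theorem phi_all (φ : W →ₗ[ZMod 2] ZMod 2) : ∃ f < 256, φ = phi f := by
  obtain ⟨f, hf, hv⟩ := vec_surj (fun i => φ (vec (2 ^ i.1)))
  refine ⟨f, hf, lin_ext _ _ fun i => ?_⟩
  have h1 := congrFun hv i
  simp only [vec] at h1
  rw [phi_vec f (by
    calc 2 ^ i.1 < 2 ^ 8 := Nat.pow_lt_pow_right (by norm_num) i.2
      _ = 256 := by norm_num), par_pow f hf i.1 i.2, ← h1]
  split_ifs <;> simp

theorem phi_inj {f g : ℕ} (hf : f < 256) (hg : g < 256) (h : phi f = phi g) : f = g := by
  apply vec_inj hf hg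
  ext i
  have h1 : phi f (vec (2 ^ i.1)) = phi g (vec (2 ^ i.1)) := by rw [h]
  have hi : 2 ^ i.1 < 256 := by
    calc 2 ^ i.1 < 2 ^ 8 := Nat.pow_lt_pow_right (by norm_num) i.2
      _ = 256 := by norm_num
  rw [phi_vec f hi, phi_vec g hi, par_pow f hf i.1 i.2, par_pow g hg i.1 i.2] at h1
  simp only [vec]
  revert h1
  cases f.testBit i.1 <;> cases g.testBit i.1 <;> simp

theorem vec_mul_mem (P : Submodule (ZMod 2) W) {c : ℕ} (hc : vec c ∈ P) (n : ℕ) :
    vec ((n % 2) * c) ∈ P := by
  rcases Nat.mod_two_eq_zero_or_one n with hn | hn <;> rw [hn]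
  · rw [zero_mul, vec_zero]; exact P.zero_mem
  · rw [one_mul]; exact hc

theorem app_mem (P : Submodule (ZMod 2) W) (cs : List ℕ) (h : ∀ c ∈ cs, vec c ∈ P) (n : ℕ) :
    vec (app cs n) ∈ P := by
  induction cs generalizing n with
  | nil => simp only [app, vec_zero]; exact P.zero_mem
  | cons c cs ih =>
    simp only [app, vec_xor]
    exact P.add_mem (vec_mul_mem P (h c List.mem_cons_self) n)
      (ih (fun c hc => h c (List.mem_cons_of_mem _ hc)) _)

end Pool.Agent.H54.Bryl
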