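import Pool.Agent.H54.Bryl.Hyp

set_option autoImplicit false

/-! The two matroids have the same deck of hyperplanes. -/

namespace Pool.Agent.H54.Bryl

open Set Submodule

/-- The point set of `E` in the kernel of the functional with code `f`. -/
def hyp (E : Set ℕ) (f : ℕ) : Set ℕ := {e | e ∈ E ∧ phi f (vec e) = 0}

/-- Every hyperplane of the space is spanned by points of `E`. -/
structure Nice (E : Set ℕ) : Prop where
  sp : ∀ f, 1 ≤ f → f < 256 → ∀ x, phi f x = 0 → x ∈ span (ZMod 2) (vec '' hyp E f)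
  ne : ∀ f, 1 ≤ f → f < 256 → ∃ e ∈ E, phi f (vec e) ≠ 0

/-- The hyperplane type of a matroid, as in the statement. -/
abbrev HypT (M : Matroid ℕ) : Type := {H : Set ℕ // H ⊆ M.E ∧ M.IsCocircuit (M.E \ H)}

/-- Codes of the nonzero functionals. -/
abbrev Idx : Type := {f : ℕ // 1 ≤ f ∧ f < 256}

theorem diff_hyp (E : Set ℕ) (f : ℕ) : E \ hyp E f = {e ∈ E | phi f (vec e) ≠ 0} := by
  ext e
  constructor
  · rintro ⟨he, hn⟩
    exact ⟨he, fun h => hn ⟨he, h⟩⟩
  · rintro ⟨he, hn⟩
    exact ⟨he, fun h => hn h.2⟩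

/-- The hyperplane of a nonzero functional. -/
def hypMap (E : Set ℕ) (hE : E.Finite) (hN : Nice E) (f : Idx) : HypT (VM E hE vec) :=
  ⟨hyp E f.1, fun _ he => he.1, by
    rw [VM_E, diff_hyp]
    exact functional_cocircuit E hE vec (phi f.1) (hN.ne f.1 f.2.1 f.2.2)
      (hN.sp f.1 f.2.1 f.2.2)⟩

theorem parA_zero_left (k n : ℕ) : parA k 0 n = 0 := by
  induction k generalizing n with
  | zero => rfl
  | succ k ih => simp [parA, ih]

theorem phi_zero : phi 0 = 0 := by
  ext x
  rw [LinearMap.comp_apply, LinearMap.comp_apply, LinearMap.zero_apply]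
  show ((par 0 (unvec _) : ℕ) : ZMod 2) = 0
  rw [par, parA_zero_left, Nat.cast_zero]

theorem hypMap_bij (E : Set ℕ) (hE : E.Finite) (hN : Nice E) :
    Function.Bijective (hypMap E hE hN) := by
  constructor
  · intro f g hfg
    have h0 : hyp E f.1 = hyp E g.1 := congrArg Subtype.val hfg
    have hle : ∀ f g : Idx, hyp E f.1 = hyp E g.1 → ∀ x, phi f.1 x = 0 → phi g.1 x = 0 := by
      intro f g h x hx
      have h1 := hN.sp f.1 f.2.1 f.2.2 x hx
      rw [h] at h1
      have h2 : span (ZMod 2) (vec '' hyp E g.1) ≤ LinearMap.ker (phi g.1) := by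
        rw [span_le]
        rintro _ ⟨e, he, rfl⟩
        exact LinearMap.mem_ker.2 he.2
      exact LinearMap.mem_ker.1 (h2 h1)
    apply Subtype.ext
    apply phi_inj f.2.2 g.2.2
    apply LinearMap.ext
    intro x
    have ha := hle f g h0 x
    have hb := hle g f h0.symm x
    revert ha hb
    generalize phi f.1 x = a
    generalize phi g.1 x = b
    revert a b
    decide
  · rintro ⟨H, hH, hco⟩
    obtain ⟨φ, hφ⟩ := cocircuit_functional E hE vec hco
    obtain ⟨f, hf, rfl⟩ := phi_all φ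
    have hne : f ≠ 0 := by
      rintro rfl
      obtain ⟨x, hx⟩ := hco.nonempty
      rw [hφ, phi_zero] at hx
      exact hx.2 rfl
    refine ⟨⟨f, by omega, hf⟩, Subtype.ext ?_⟩
    show hyp E f = H
    have h2 : E \ hyp E f = E \ H := by
      rw [diff_hyp]
      exact hφ.symm
    have h3 : E \ (E \ hyp E f) = E \ (E \ H) := by rw [h2]
    rw [Set.sdiff_sdiff_cancel_left (show hyp E f ⊆ E from fun _ he => he.1),
      Set.sdiff_sdiff_cancel_left (show H ⊆ E from hH)] at h3
    exact h3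

/-! The permutation of the functionals. -/

theorem table_p : ∀ r ∈ table, 1 ≤ r.p ∧ r.p < 256 := by decide +kernel

theorem table_nodup : (table.map Row.p).Nodup := by decide +kernel

theorem row_eq {f : ℕ} (h1 : 1 ≤ f) (h2 : f < 256) :
    ∃ h : f - 1 < table.length, row f = table[f - 1] := by
  have hl : f - 1 < table.length := by rw [table_length]; omega
  refine ⟨hl, ?_⟩
  unfold row
  rw [List.getD_eq_getElem _ _ hl]

theorem row_p {f : ℕ} (h1 : 1 ≤ f) (h2 : f < 256) : 1 ≤ (row f).p ∧ (row f).p < 256 := by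
  obtain ⟨hl, h⟩ := row_eq h1 h2
  rw [h]
  exact table_p _ (List.getElem_mem hl)

/-- The map on functionals. -/
def permF (f : Idx) : Idx := ⟨(row f.1).p, row_p f.2.1 f.2.2⟩

theorem permF_inj : Function.Injective permF := by
  intro f g hfg
  have h0 : (row f.1).p = (row g.1).p := congrArg Subtype.val hfg
  obtain ⟨hf, ef⟩ := row_eq f.2.1 f.2.2
  obtain ⟨hg, eg⟩ := row_eq g.2.1 g.2.2
  rw [ef, eg] at h0
  have hf' : f.1 - 1 < (table.map Row.p).length := by rw [List.length_map]; exact hf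
  have hg' : g.1 - 1 < (table.map Row.p).length := by rw [List.length_map]; exact hg
  have h1 : (table.map Row.p)[f.1 - 1] = (table.map Row.p)[g.1 - 1] := by
    rw [List.getElem_map, List.getElem_map, h0]
  have h2 := (List.Nodup.getElem_inj_iff table_nodup).1 h1
  apply Subtype.ext
  have := f.2.1
  have := g.2.1
  omega

theorem idx_finite : Finite Idx :=
  (Set.finite_Iio 256).subset (s := Set.Iio 256) (t := {f | 1 ≤ f ∧ f < 256})
    (fun _ h => h.2) |>.to_subtype

theorem permF_bij : Function.Bijective permF :=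
  haveI := idx_finite
  Finite.injective_iff_bijective.1 permF_inj

/-! Niceness of both sets. -/

theorem nice1 : Nice E1 := ⟨fun _ h1 h2 x hx => (row_good h1 h2).span1 x hx,
  fun _ h1 h2 => (row_good h1 h2).ne1⟩

theorem nice2 : Nice E2 := by
  refine ⟨fun g h1 h2 x hx => ?_, fun _ h1 h2 => ne2 h1 h2⟩
  obtain ⟨f, hf⟩ := permF_bij.2 ⟨g, h1, h2⟩
  have hg : (row f.1).p = g := congrArg Subtype.val hf
  subst hg
  exact (row_good f.2.1 f.2.2).span2 x hx

/-! The isomorphisms between corresponding hyperplanes. -/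

theorem linIndep_app {f : ℕ} {r : Row} (h : Good f r) {J : Set ℕ} (hJ : ∀ n ∈ J, n < 256) :
    LinearIndepOn (ZMod 2) vec J ↔ LinearIndepOn (ZMod 2) vec (app r.G '' J) := by
  have hinj : Function.Injective (lin r.G) := by
    intro x y hxy
    have := congrArg (lin r.G') hxy
    have e1 := congrArg (fun φ => φ x) h.lin_gg'
    have e2 := congrArg (fun φ => φ y) h.lin_gg'
    simp only [LinearMap.comp_apply, LinearMap.id_apply] at e1 e2
    rw [← e1, ← e2, this]
  have heq : Set.EqOn (lin r.G ∘ vec) (vec ∘ app r.G) J := by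
    intro n hn
    exact lin_vec _ (hJ n hn)
  constructor
  · intro hl
    have h1 := hl.map_injOn (lin r.G) hinj.injOn
    exact LinearIndepOn.image_of_comp _ _ (h1.congr heq)
  · intro hl
    have h1 : LinearIndepOn (ZMod 2) (vec ∘ app r.G) J := by
      apply hl.comp_of_image
      intro a ha b hb hab
      rw [← h.app_gg' (hJ a ha), ← h.app_gg' (hJ b hb), hab]
    have h2 := h1.congr heq.symm
    exact (LinearMap.linearIndepOn_iff_of_injOn (lin r.G) hinj.injOn).1 h2

/-- The bijection of corresponding hyperplanes. -/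
def hypEquiv {f : ℕ} {r : Row} (h : Good f r) : ↥(hyp E1 f) ≃ ↥(hyp E2 r.p) where
  toFun n := ⟨app r.G n.1, by
    have hlt := L1_lt _ n.2.1
    have hp := (phi_vec_zero f hlt).1 n.2.2
    exact ⟨mem_E2 (h.maps _ n.2.1 hp),
      (phi_vec_zero _ (app_lt _ h.glt _)).2 (by rw [h.par_g hlt, hp])⟩⟩
  invFun n := ⟨app r.G' n.1, by
    have hlt := L2_lt _ n.2.1
    have hp := (phi_vec_zero _ hlt).1 n.2.2
    exact ⟨mem_E1 (h.maps' _ n.2.1 hp),
      (phi_vec_zero _ (app_lt _ h.g'lt _)).2 (by rw [h.par_g' hlt, hp])⟩⟩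
  left_inv n := Subtype.ext (h.app_gg' (L1_lt _ n.2.1))
  right_inv n := Subtype.ext (h.app_g'g (L2_lt _ n.2.1))

theorem hypEquiv_indep {f : ℕ} {r : Row} (h : Good f r) (I : Set ↥(hyp E1 f)) :
    (M1.restrict (hyp E1 f)).Indep (Subtype.val '' I) ↔
      (M2.restrict (hyp E2 r.p)).Indep (Subtype.val '' (hypEquiv h '' I)) := by
  have him : Subtype.val '' (hypEquiv h '' I) = app r.G '' (Subtype.val '' I) := by
    rw [image_image, image_image]
    rfl
  have hsub1 : Subtype.val '' I ⊆ hyp E1 f := by rintro _ ⟨x, _, rfl⟩; exact x.2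
  have hsub2 : Subtype.val '' (hypEquiv h '' I) ⊆ hyp E2 r.p := by
    rintro _ ⟨x, _, rfl⟩; exact x.2
  rw [Matroid.restrict_indep_iff, Matroid.restrict_indep_iff]
  have hM1 : M1.Indep (Subtype.val '' I) ↔ LinearIndepOn (ZMod 2) vec (Subtype.val '' I) :=
    ⟨fun h => ((VM_indep E1 E1_fin vec _).1 h).2,
      fun h => (VM_indep E1 E1_fin vec _).2 ⟨fun x hx => (hsub1 hx).1, h⟩⟩
  have hM2 : M2.Indep (Subtype.val '' (hypEquiv h '' I)) ↔
      LinearIndepOn (ZMod 2) vec (Subtype.val '' (hypEquiv h '' I)) :=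
    ⟨fun h => ((VM_indep E2 E2_fin vec _).1 h).2,
      fun h => (VM_indep E2 E2_fin vec _).2 ⟨fun x hx => (hsub2 hx).1, h⟩⟩
  rw [hM1, hM2, him, linIndep_app h (fun n hn => L1_lt n (hsub1 hn).1), ← him]
  exact ⟨fun hh => ⟨hh.1, hsub2⟩, fun hh => ⟨hh.1, hsub1⟩⟩

/-- The bijection of the hyperplanes. -/
noncomputable def alpha : HypT M1 ≃ HypT M2 :=
  (Equiv.ofBijective _ (hypMap_bij E1 E1_fin nice1)).symm.trans
    ((Equiv.ofBijective _ permF_bij).trans (Equiv.ofBijective _ (hypMap_bij E2 E2_fin nice2)))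

theorem alpha_apply (f : Idx) :
    alpha (hypMap E1 E1_fin nice1 f) = hypMap E2 E2_fin nice2 (permF f) := by
  show hypMap E2 E2_fin nice2 (permF ((Equiv.ofBijective _ (hypMap_bij E1 E1_fin nice1)).symm
    (hypMap E1 E1_fin nice1 f))) = _
  rw [Equiv.ofBijective_symm_apply_apply]

theorem deck (H : HypT M1) : ∃ e : ↥H.1 ≃ ↥(alpha H).1, ∀ I : Set ↥H.1,
    (M1.restrict H.1).Indep (Subtype.val '' I) ↔
      (M2.restrict (alpha H).1).Indep (Subtype.val '' (e '' I)) := by
  obtain ⟨f, rfl⟩ := (hypMap_bij E1 E1_fin nice1).2 H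
  have key : ∀ K : HypT M2, K = hypMap E2 E2_fin nice2 (permF f) →
      ∃ e : ↥(hypMap E1 E1_fin nice1 f).1 ≃ ↥K.1, ∀ I : Set ↥(hypMap E1 E1_fin nice1 f).1,
        (M1.restrict (hypMap E1 E1_fin nice1 f).1).Indep (Subtype.val '' I) ↔
          (M2.restrict K.1).Indep (Subtype.val '' (e '' I)) := by
    rintro _ rfl
    exact ⟨hypEquiv (row_good f.2.1 f.2.2), hypEquiv_indep (row_good f.2.1 f.2.2)⟩
  exact key _ (alpha_apply f)

end Pool.Agent.H54.Bryl
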