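import Pool.Agent.H54.Bryl.Data

set_option autoImplicit false

/-! Consequences of the table: the hyperplanes of the two matroids and their isomorphisms. -/

namespace Pool.Agent.H54.Bryl

open Set Submodule

theorem L1_lt : ∀ n ∈ L1, n < 256 := by decide +kernel
theorem L2_lt : ∀ n ∈ L2, n < 256 := by decide +kernel
theorem L1_pos : ∀ n ∈ L1, n ≠ 0 := by decide +kernel
theorem L2_pos : ∀ n ∈ L2, n ≠ 0 := by decide +kernel
theorem m1_mem : ∀ n < 256, m1.testBit n = true → n ∈ L1 := by decide +kernel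
theorem m2_mem : ∀ n < 256, m2.testBit n = true → n ∈ L2 := by decide +kernel

/-- Ground sets. -/
def E1 : Set ℕ := {n | n ∈ L1}
def E2 : Set ℕ := {n | n ∈ L2}

theorem E1_fin : E1.Finite := L1.finite_toSet
theorem E2_fin : E2.Finite := L2.finite_toSet

/-- The two matroids. -/
noncomputable abbrev M1 : Matroid ℕ := VM E1 E1_fin vec
noncomputable abbrev M2 : Matroid ℕ := VM E2 E2_fin vec

theorem checkList_get : ∀ (rs : List Row) (f : ℕ), checkList f rs = true →
    ∀ i, (h : i < rs.length) → check (f + i) rs[i] = true := by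
  intro rs
  induction rs with
  | nil => intro f _ i h; exact absurd h (by simp)
  | cons r rs ih =>
    intro f hf i h
    simp only [checkList, Bool.and_eq_true] at hf
    cases i with
    | zero => exact hf.1
    | succ i =>
      have := ih (f + 1) hf.2 i (by simpa using h)
      simpa [Nat.add_assoc, Nat.add_comm 1 i] using this

theorem table_length : table.length = 255 := by decide +kernel

/-- Row of the functional `f` (nonzero). -/
def row (f : ℕ) : Row := table.getD (f - 1) ⟨0, [], [], [], 0, []⟩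

theorem row_check {f : ℕ} (h1 : 1 ≤ f) (h2 : f < 256) : check f (row f) = true := by
  have hl : f - 1 < table.length := by rw [table_length]; omega
  have h := checkList_get table 1 table_ok (f - 1) hl
  have e1 : 1 + (f - 1) = f := by omega
  rw [e1] at h
  have e2 : row f = table[f - 1] := by
    unfold row
    rw [List.getD_eq_getElem _ _ hl]
  rw [e2]
  exact h

/-- The properties recorded by a row. -/
structure Good (f : ℕ) (r : Row) : Prop where
  gg' : ∀ b ∈ units, app r.G' (app r.G b) = b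
  g'g : ∀ b ∈ units, app r.G (app r.G' b) = b
  glt : ∀ b ∈ r.G, b < 256
  g'lt : ∀ b ∈ r.G', b < 256
  par_eq : ∀ b ∈ units, par r.p (app r.G b) = par f b
  maps : ∀ n ∈ L1, par f n = 0 → m2.testBit (app r.G n) = true
  maps' : ∀ n ∈ L2, par r.p n = 0 → m1.testBit (app r.G' n) = true
  clen : r.C.length = 7
  cmem : ∀ b ∈ r.C, m1.testBit b = true ∧ par f b = 0
  wmem : m1.testBit r.w = true ∧ par f r.w = 1
  dlt : ∀ b ∈ r.D, b < 256
  cd : ∀ b ∈ units, app (r.C ++ [r.w]) (app r.D b) = b

theorem good_of_check {f : ℕ} {r : Row} (h : check f r = true) : Good f r := by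
  simp only [check, Bool.and_eq_true, List.all_eq_true, beq_iff_eq, Bool.or_eq_true,
    Nat.blt_eq] at h
  obtain ⟨⟨⟨⟨⟨⟨⟨⟨⟨⟨⟨h1, h2⟩, h3⟩, h4⟩, h5⟩, h6⟩, h7⟩, h8⟩, h9⟩, h10⟩, h11⟩, h12⟩ := h
  refine ⟨h1, h2, h3, h4, h5, ?_, ?_, h8, h9, h10, h11, h12⟩
  · intro n hn h0
    rcases h6 n hn with h | h
    · omega
    · exact h
  · intro n hn h0
    rcases h7 n hn with h | h
    · omega
    · exact h

theorem row_good {f : ℕ} (h1 : 1 ≤ f) (h2 : f < 256) : Good f (row f) :=
  good_of_check (row_check h1 h2)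

theorem unit_mem (i : Fin 8) : 2 ^ i.1 ∈ units := by revert i; decide

theorem unit_lt (i : Fin 8) : 2 ^ i.1 < 256 := by revert i; decide

theorem m1_lt {n : ℕ} (h : m1.testBit n = true) : n < 256 := by
  by_contra hn
  have h2 : m1 < 2 ^ n := lt_of_lt_of_le (b := 2 ^ 256) (by decide +kernel)
    (Nat.pow_le_pow_right (by norm_num) (by omega))
  rw [Nat.testBit_lt_two_pow h2] at h
  exact Bool.false_ne_true h

theorem m2_lt {n : ℕ} (h : m2.testBit n = true) : n < 256 := by
  by_contra hn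
  have h2 : m2 < 2 ^ n := lt_of_lt_of_le (b := 2 ^ 256) (by decide +kernel)
    (Nat.pow_le_pow_right (by norm_num) (by omega))
  rw [Nat.testBit_lt_two_pow h2] at h
  exact Bool.false_ne_true h

theorem mem_E1 {n : ℕ} (h : m1.testBit n = true) : n ∈ E1 := m1_mem n (m1_lt h) h
theorem mem_E2 {n : ℕ} (h : m2.testBit n = true) : n ∈ E2 := m2_mem n (m2_lt h) h

namespace Good

variable {f : ℕ} {r : Row} (h : Good f r)
include h

theorem lin_gg' : (lin r.G').comp (lin r.G) = LinearMap.id := by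
  apply lin_ext
  intro i
  rw [LinearMap.comp_apply, lin_vec _ (unit_lt i), lin_vec _ (app_lt _ h.glt _),
    h.gg' _ (unit_mem i), LinearMap.id_apply]

theorem lin_g'g : (lin r.G).comp (lin r.G') = LinearMap.id := by
  apply lin_ext
  intro i
  rw [LinearMap.comp_apply, lin_vec _ (unit_lt i), lin_vec _ (app_lt _ h.g'lt _),
    h.g'g _ (unit_mem i), LinearMap.id_apply]

theorem lin_cd : (lin (r.C ++ [r.w])).comp (lin r.D) = LinearMap.id := by
  apply lin_ext
  intro i
  rw [LinearMap.comp_apply, lin_vec _ (unit_lt i), lin_vec _ (app_lt _ h.dlt _),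
    h.cd _ (unit_mem i), LinearMap.id_apply]

theorem phi_g : (phi r.p).comp (lin r.G) = phi f := by
  apply lin_ext
  intro i
  rw [LinearMap.comp_apply, lin_vec _ (unit_lt i), phi_vec _ (app_lt _ h.glt _),
    h.par_eq _ (unit_mem i), phi_vec _ (unit_lt i)]

theorem app_gg' {n : ℕ} (hn : n < 256) : app r.G' (app r.G n) = n := by
  apply vec_inj (app_lt _ h.g'lt _) hn
  have := congrArg (fun φ => φ (vec n)) h.lin_gg'
  simp only [LinearMap.comp_apply, LinearMap.id_apply] at this
  rwa [lin_vec _ hn, lin_vec _ (app_lt _ h.glt _)] at this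

theorem app_g'g {n : ℕ} (hn : n < 256) : app r.G (app r.G' n) = n := by
  apply vec_inj (app_lt _ h.glt _) hn
  have := congrArg (fun φ => φ (vec n)) h.lin_g'g
  simp only [LinearMap.comp_apply, LinearMap.id_apply] at this
  rwa [lin_vec _ hn, lin_vec _ (app_lt _ h.g'lt _)] at this

theorem par_g {n : ℕ} (hn : n < 256) : par r.p (app r.G n) = par f n := by
  have := congrArg (fun φ => φ (vec n)) h.phi_g
  simp only [LinearMap.comp_apply] at this
  rw [lin_vec _ hn, phi_vec _ (app_lt _ h.glt _), phi_vec _ hn] at this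
  rcases par_cases r.p (app r.G n) with h1 | h1 <;> rcases par_cases f n with h2 | h2 <;>
    rw [h1, h2] at this ⊢ <;> simp at this

theorem par_g' {n : ℕ} (hn : n < 256) : par f (app r.G' n) = par r.p n := by
  rw [← h.par_g (app_lt _ h.g'lt _), h.app_g'g hn]

/-- the kernel of `phi f` is spanned by the points of `E1` it contains -/
theorem span1 (x : W) (hx : phi f x = 0) :
    x ∈ span (ZMod 2) (vec '' {e ∈ E1 | phi f (vec e) = 0}) := by
  set P := span (ZMod 2) (vec '' {e ∈ E1 | phi f (vec e) = 0}) with hP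
  have hPk : P ≤ LinearMap.ker (phi f) := by
    rw [hP, span_le]
    rintro _ ⟨e, he, rfl⟩
    exact LinearMap.mem_ker.2 he.2
  obtain ⟨m, hm, hmx⟩ := vec_surj (lin r.D x)
  have h1 : lin (r.C ++ [r.w]) (lin r.D x) = x := by
    have := congrArg (fun φ => φ x) h.lin_cd
    simpa using this
  rw [← hmx, lin_vec _ hm, app_append_single, vec_xor] at h1
  have h2 : vec (app r.C m) ∈ P := by
    apply app_mem
    intro c hc
    have hc' := h.cmem c hc
    refine subset_span ⟨c, ⟨mem_E1 hc'.1, ?_⟩, rfl⟩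
    exact (phi_vec_zero f (m1_lt hc'.1)).2 hc'.2
  rcases Nat.mod_two_eq_zero_or_one (m / 2 ^ r.C.length) with hk | hk
  · rw [hk, zero_mul, vec_zero, add_zero] at h1
    rw [← h1]
    exact h2
  · exfalso
    rw [hk, one_mul] at h1
    rw [← h1, map_add, LinearMap.mem_ker.1 (hPk h2), zero_add,
      phi_vec_zero f (m1_lt h.wmem.1), h.wmem.2] at hx
    exact one_ne_zero hx

theorem span2 (x : W) (hx : phi r.p x = 0) :
    x ∈ span (ZMod 2) (vec '' {e ∈ E2 | phi r.p (vec e) = 0}) := by
  have h1 : lin r.G (lin r.G' x) = x := by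
    have := congrArg (fun φ => φ x) h.lin_g'g
    simpa using this
  have h2 : phi f (lin r.G' x) = 0 := by
    rw [← h.phi_g, LinearMap.comp_apply, h1, hx]
  have h3 := h.span1 _ h2
  have h4 : lin r.G (lin r.G' x) ∈ (span (ZMod 2) (vec '' {e ∈ E1 | phi f (vec e) = 0})).map
      (lin r.G) := Submodule.mem_map_of_mem h3
  rw [h1, Submodule.map_span] at h4
  refine span_mono ?_ h4
  rintro _ ⟨_, ⟨e, he, rfl⟩, rfl⟩
  have helt := L1_lt e he.1
  have hpe := (phi_vec_zero f helt).1 he.2
  refine ⟨app r.G e, ⟨mem_E2 (h.maps e he.1 hpe), ?_⟩, (lin_vec _ helt).symm⟩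
  rw [phi_vec_zero _ (app_lt _ h.glt _), h.par_g helt, hpe]

theorem ne1 : ∃ e ∈ E1, phi f (vec e) ≠ 0 := by
  refine ⟨r.w, mem_E1 h.wmem.1, fun h0 => ?_⟩
  rw [phi_vec_zero f (m1_lt h.wmem.1), h.wmem.2] at h0
  exact one_ne_zero h0

end Good

theorem L2_any : ∀ g < 256, 1 ≤ g → (L2.any fun n => par g n == 1) = true := by decide +kernel

theorem ne2 {g : ℕ} (hp1 : 1 ≤ g) (hp2 : g < 256) : ∃ e ∈ E2, phi g (vec e) ≠ 0 := by
  have h := L2_any g hp2 hp1
  rw [List.any_eq_true] at h
  obtain ⟨n, hn, h1⟩ := h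
  refine ⟨n, hn, fun h0 => ?_⟩
  rw [phi_vec_zero g (L2_lt n hn), beq_iff_eq.1 h1] at h0
  exact one_ne_zero h0

end Pool.Agent.H54.Bryl
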