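import Pool.Agent.H54.Bryl.Hyp

set_option autoImplicit false

/-! The two matroids are not isomorphic. -/

namespace Pool.Agent.H54.Bryl

open Set Submodule

theorem dep3 {a b c : ℕ} (hab : a ^^^ b = c) (hca : c ≠ a) (hcb : c ≠ b) :
    ¬ LinearIndepOn (ZMod 2) vec ({a, b, c} : Set ℕ) := by
  intro h
  have hset : ({a, b, c} : Set ℕ) = insert c {a, b} := by
    ext x
    simp only [mem_insert_iff, mem_singleton_iff]
    tauto
  rw [hset] at h
  have hn : c ∉ ({a, b} : Set ℕ) := by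
    simp only [mem_insert_iff, mem_singleton_iff]
    tauto
  refine ((linearIndepOn_insert hn).1 h).2 ?_
  rw [← hab, vec_xor]
  exact Submodule.add_mem _ (subset_span ⟨a, by simp, rfl⟩) (subset_span ⟨b, by simp, rfl⟩)

theorem vec_ne_zero {a : ℕ} (ha : a < 256) (h : a ≠ 0) : vec a ≠ 0 := by
  intro h0
  rw [← vec_zero] at h0
  exact h (vec_inj ha (by norm_num) h0)

theorem zmod2_cases (k : ZMod 2) : k = 0 ∨ k = 1 := by
  revert k
  decide

theorem indep3 {a b c : ℕ} (ha : a < 256) (hb : b < 256) (hc : c < 256) (ha0 : a ≠ 0)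
    (hb0 : b ≠ 0) (hc0 : c ≠ 0) (hab : a ≠ b) (hca : c ≠ a) (hcb : c ≠ b) (h : a ^^^ b ≠ c) :
    LinearIndepOn (ZMod 2) vec ({a, b, c} : Set ℕ) := by
  have h1 : LinearIndepOn (ZMod 2) vec ({a} : Set ℕ) :=
    (linearIndepOn_singleton_iff _).2 (vec_ne_zero ha ha0)
  have h2 : LinearIndepOn (ZMod 2) vec (insert b {a} : Set ℕ) := by
    apply h1.insert
    rw [image_singleton, mem_span_singleton]
    rintro ⟨k, hk⟩
    have hk2 : k = 0 ∨ k = 1 := zmod2_cases k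
    rcases hk2 with rfl | rfl
    · rw [zero_smul] at hk
      exact vec_ne_zero hb hb0 hk.symm
    · rw [one_smul] at hk
      exact hab (vec_inj ha hb hk)
  have h3 : LinearIndepOn (ZMod 2) vec (insert c (insert b {a}) : Set ℕ) := by
    apply h2.insert
    rw [image_insert_eq, image_singleton, mem_span_pair]
    rintro ⟨k, l, hk⟩
    have hk2 : k = 0 ∨ k = 1 := zmod2_cases k
    have hl2 : l = 0 ∨ l = 1 := zmod2_cases l
    rcases hk2 with rfl | rfl <;> rcases hl2 with rfl | rfl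
    · rw [zero_smul, zero_smul, add_zero] at hk
      exact vec_ne_zero hc hc0 hk.symm
    · rw [zero_smul, one_smul, zero_add] at hk
      exact hca (vec_inj ha hc hk).symm
    · rw [zero_smul, one_smul, add_zero] at hk
      exact hcb (vec_inj hb hc hk).symm
    · rw [one_smul, one_smul, ← vec_xor] at hk
      have := vec_inj (Nat.xor_lt_two_pow (n := 8) hb ha) hc hk
      rw [Nat.xor_comm] at this
      exact h this
  have hset : ({a, b, c} : Set ℕ) = insert c (insert b {a}) := by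
    ext x
    simp only [mem_insert_iff, mem_singleton_iff]
    tauto
  rw [hset]
  exact h3

/-- Isomorphism data. -/
structure IsoData (E E' : Set ℕ) : Type where
  hE : E.Finite
  hE' : E'.Finite
  lt : ∀ n ∈ E, n < 256
  lt' : ∀ n ∈ E', n < 256
  pos : ∀ n ∈ E, n ≠ 0
  pos' : ∀ n ∈ E', n ≠ 0
  e : ↥E ≃ ↥E'
  he : ∀ I : Set ↥E, (VM E hE vec).Indep (Subtype.val '' I) ↔
    (VM E' hE' vec).Indep (Subtype.val '' (e '' I))

/-- The inverse isomorphism. -/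
def IsoData.symm {E E' : Set ℕ} (d : IsoData E E') : IsoData E' E where
  hE := d.hE'
  hE' := d.hE
  lt := d.lt'
  lt' := d.lt
  pos := d.pos'
  pos' := d.pos
  e := d.e.symm
  he := fun I => by
    have h := d.he (d.e.symm '' I)
    have h2 : d.e '' (d.e.symm '' I) = I := by
      rw [image_image]
      simp
    rw [h2] at h
    exact h.symm

theorem xor_ne_left {a b c : ℕ} (h : a ^^^ b = c) (hb : b ≠ 0) : c ≠ a := by
  rintro rfl
  apply hb
  have : c ^^^ (c ^^^ b) = c ^^^ c := by rw [h]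
  rwa [← Nat.xor_assoc, Nat.xor_self, Nat.zero_xor] at this

theorem xor_ne_right {a b c : ℕ} (h : a ^^^ b = c) (ha : a ≠ 0) : c ≠ b :=
  xor_ne_left (by rw [Nat.xor_comm]; exact h) ha

theorem xor_ne {a b c : ℕ} (h : a ^^^ b = c) (hc : c ≠ 0) : a ≠ b := by
  rintro rfl
  rw [Nat.xor_self] at h
  exact hc h.symm

theorem IsoData.rel {E E' : Set ℕ} (d : IsoData E E') (a b c : ↥E) (h : a.1 ^^^ b.1 = c.1) :
    (d.e a).1 ^^^ (d.e b).1 = (d.e c).1 := by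
  have hab : a.1 ≠ b.1 := xor_ne h (d.pos _ c.2)
  have hca : c.1 ≠ a.1 := xor_ne_left h (d.pos _ b.2)
  have hcb : c.1 ≠ b.1 := xor_ne_right h (d.pos _ a.2)
  by_contra hcon
  have hinj : ∀ x y : ↥E, x.1 ≠ y.1 → (d.e x).1 ≠ (d.e y).1 := fun x y hxy heq =>
    hxy (congrArg Subtype.val (d.e.injective (Subtype.ext heq)))
  have hli := indep3 (d.lt' _ (d.e a).2) (d.lt' _ (d.e b).2) (d.lt' _ (d.e c).2)
    (d.pos' _ (d.e a).2) (d.pos' _ (d.e b).2) (d.pos' _ (d.e c).2)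
    (hinj a b hab) (hinj c a hca) (hinj c b hcb) hcon
  have h1 := d.he {a, b, c}
  have e1 : Subtype.val '' ({a, b, c} : Set ↥E) = {a.1, b.1, c.1} := by
    rw [image_insert_eq, image_pair]
  have e2 : Subtype.val '' (d.e '' ({a, b, c} : Set ↥E)) =
      {(d.e a).1, (d.e b).1, (d.e c).1} := by
    rw [image_insert_eq, image_pair, image_insert_eq, image_pair]
  rw [e1, e2] at h1
  have h2 : (VM E' d.hE' vec).Indep {(d.e a).1, (d.e b).1, (d.e c).1} := by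
    refine (VM_indep E' d.hE' vec _).2 ⟨?_, hli⟩
    rintro x (rfl | rfl | rfl)
    exacts [(d.e a).2, (d.e b).2, (d.e c).2]
  exact dep3 h hca hcb ((VM_indep E d.hE vec _).1 (h1.2 h2)).2

/-- Number of three point lines through `a` (doubled). -/
noncomputable def cntS (E : Set ℕ) (a : ℕ) : ℕ := {b | b ∈ E ∧ a ^^^ b ∈ E}.ncard

theorem IsoData.cnt {E E' : Set ℕ} (d : IsoData E E') (a : ↥E) :
    cntS E' (d.e a).1 = cntS E a.1 := by
  symm
  apply Set.ncard_congr (fun b hb => (d.e ⟨b, hb.1⟩).1)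
  · intro b hb
    refine ⟨(d.e ⟨b, hb.1⟩).2, ?_⟩
    rw [d.rel a ⟨b, hb.1⟩ ⟨_, hb.2⟩ rfl]
    exact (d.e _).2
  · intro b c hb hc h
    exact congrArg Subtype.val (d.e.injective (Subtype.ext h))
  · intro b' hb'
    have h1 := d.symm.rel (d.e a) ⟨b', hb'.1⟩ ⟨_, hb'.2⟩ rfl
    have h2 : (d.symm.e (d.e a)) = a := d.e.symm_apply_apply a
    rw [h2] at h1
    refine ⟨(d.symm.e ⟨b', hb'.1⟩).1, ⟨(d.symm.e ⟨b', hb'.1⟩).2, ?_⟩, ?_⟩
    · rw [h1]
      exact (d.symm.e _).2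
    · exact congrArg Subtype.val (d.e.apply_symm_apply ⟨b', hb'.1⟩)

/-! Computations. -/

theorem L1_mask : ∀ n ∈ L1, m1.testBit n = true := by decide +kernel
theorem L2_mask : ∀ n ∈ L2, m2.testBit n = true := by decide +kernel
theorem L1_nodup : L1.Nodup := by decide +kernel
theorem L2_nodup : L2.Nodup := by decide +kernel

/-- List version of `cntS`. -/
def cntL (L : List ℕ) (m a : ℕ) : ℕ := (L.filter fun b => m.testBit (a ^^^ b)).length

theorem cnt1 (a : ℕ) : cntS E1 a = cntL L1 m1 a := by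
  classical
  have h : {b | b ∈ E1 ∧ a ^^^ b ∈ E1} =
      ((L1.filter fun b => m1.testBit (a ^^^ b)).toFinset : Set ℕ) := by
    ext b
    rw [Finset.mem_coe, List.mem_toFinset, List.mem_filter]
    constructor
    · rintro ⟨h1, h2⟩
      exact ⟨h1, L1_mask _ h2⟩
    · rintro ⟨h1, h2⟩
      exact ⟨h1, mem_E1 h2⟩
  unfold cntS cntL
  rw [h, Set.ncard_coe_finset, List.toFinset_card_of_nodup (L1_nodup.filter _)]

theorem cnt2 (a : ℕ) : cntS E2 a = cntL L2 m2 a := by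
  classical
  have h : {b | b ∈ E2 ∧ a ^^^ b ∈ E2} =
      ((L2.filter fun b => m2.testBit (a ^^^ b)).toFinset : Set ℕ) := by
    ext b
    rw [Finset.mem_coe, List.mem_toFinset, List.mem_filter]
    constructor
    · rintro ⟨h1, h2⟩
      exact ⟨h1, L2_mask _ h2⟩
    · rintro ⟨h1, h2⟩
      exact ⟨h1, mem_E2 h2⟩
  unfold cntS cntL
  rw [h, Set.ncard_coe_finset, List.toFinset_card_of_nodup (L2_nodup.filter _)]

/-- multiplication by `t` in the second field -/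
def mulp (A : ℕ) : ℕ := if 8 ≤ 2 * A then (2 * A) ^^^ 13 else 2 * A

theorem cl16 : ∀ A ∈ L2, cntL L2 m2 A = 16 → A ∈ [1, 2, 3, 4, 5, 6, 7] := by decide +kernel
theorem cl22 : ∀ A ∈ L2, cntL L2 m2 A = 22 → A ∈ [8, 16, 24, 32, 40, 48, 56] := by
  decide +kernel
theorem key20 : ∀ A ∈ [1, 2, 3, 4, 5, 6, 7], ∀ B ∈ [8, 16, 24, 32, 40, 48, 56],
    cntL L2 m2 (A ^^^ B) = 20 → A ^^^ B ∈ L2 → B = 8 * A := by decide +kernel
theorem key32 : ∀ A ∈ [1, 2, 3, 4, 5, 6, 7], ∀ B ∈ [8, 16, 24, 32, 40, 48, 56],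
    cntL L2 m2 (A ^^^ B) = 32 → A ^^^ B ∈ L2 → B = 8 * mulp A := by decide +kernel
theorem key_end : ∀ A ∈ [1, 2, 3, 4, 5, 6, 7], A ^^^ mulp A ≠ mulp (mulp (mulp A)) := by
  decide +kernel

theorem cnt16 : ∀ a ∈ [1, 2, 4, 3], a ∈ L1 ∧ cntL L1 m1 a = 16 := by decide +kernel
theorem cnt22 : ∀ a ∈ [1, 2, 4, 3], 8 * a ∈ L1 ∧ cntL L1 m1 (8 * a) = 22 := by decide +kernel
theorem cnt20 : ∀ a ∈ [1, 2, 4, 3], a ^^^ (8 * a) ∈ L1 ∧ cntL L1 m1 (a ^^^ (8 * a)) = 20 := by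
  decide +kernel
theorem cnt32 : ∀ p ∈ [(1, 2), (2, 4), (4, 3)],
    p.1 ^^^ (8 * p.2) ∈ L1 ∧ cntL L1 m1 (p.1 ^^^ (8 * p.2)) = 32 := by decide +kernel

theorem no_iso (d : IsoData E1 E2) : False := by
  -- images of the first plane
  have hA : ∀ a (ha : a ∈ [1, 2, 4, 3]),
      (d.e ⟨a, (cnt16 a ha).1⟩).1 ∈ [1, 2, 3, 4, 5, 6, 7] := by
    intro a ha
    apply cl16 _ (d.e _).2
    rw [← cnt2, d.cnt, cnt1]
    exact (cnt16 a ha).2
  have hB : ∀ a (ha : a ∈ [1, 2, 4, 3]),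
      (d.e ⟨8 * a, (cnt22 a ha).1⟩).1 ∈ [8, 16, 24, 32, 40, 48, 56] := by
    intro a ha
    apply cl22 _ (d.e _).2
    rw [← cnt2, d.cnt, cnt1]
    exact (cnt22 a ha).2
  have h20 : ∀ a (ha : a ∈ [1, 2, 4, 3]),
      (d.e ⟨8 * a, (cnt22 a ha).1⟩).1 = 8 * (d.e ⟨a, (cnt16 a ha).1⟩).1 := by
    intro a ha
    have hr := d.rel ⟨a, (cnt16 a ha).1⟩ ⟨8 * a, (cnt22 a ha).1⟩ ⟨_, (cnt20 a ha).1⟩ rfl
    apply key20 _ (hA a ha) _ (hB a ha)
    · rw [hr, ← cnt2, d.cnt, cnt1]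
      exact (cnt20 a ha).2
    · rw [hr]
      exact (d.e _).2
  have h32 : ∀ a b (ha : a ∈ [1, 2, 4, 3]) (hb : b ∈ [1, 2, 4, 3])
      (hp : (a, b) ∈ [(1, 2), (2, 4), (4, 3)]),
      (d.e ⟨8 * b, (cnt22 b hb).1⟩).1 = 8 * mulp (d.e ⟨a, (cnt16 a ha).1⟩).1 := by
    intro a b ha hb hp
    have hr := d.rel ⟨a, (cnt16 a ha).1⟩ ⟨8 * b, (cnt22 b hb).1⟩ ⟨_, (cnt32 (a, b) hp).1⟩ rfl
    apply key32 _ (hA a ha) _ (hB b hb)
    · rw [hr, ← cnt2, d.cnt, cnt1]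
      exact (cnt32 (a, b) hp).2
    · rw [hr]
      exact (d.e _).2
  have hstep : ∀ a b (ha : a ∈ [1, 2, 4, 3]) (hb : b ∈ [1, 2, 4, 3])
      (hp : (a, b) ∈ [(1, 2), (2, 4), (4, 3)]),
      (d.e ⟨b, (cnt16 b hb).1⟩).1 = mulp (d.e ⟨a, (cnt16 a ha).1⟩).1 := by
    intro a b ha hb hp
    have h1 := h32 a b ha hb hp
    rw [h20 b hb] at h1
    omega
  have i1 : 1 ∈ [1, 2, 4, 3] := by decide
  have i2 : 2 ∈ [1, 2, 4, 3] := by decide
  have i4 : 4 ∈ [1, 2, 4, 3] := by decide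
  have i3 : 3 ∈ [1, 2, 4, 3] := by decide
  have s1 := hstep 1 2 i1 i2 (by decide)
  have s2 := hstep 2 4 i2 i4 (by decide)
  have s3 := hstep 4 3 i4 i3 (by decide)
  have hr := d.rel ⟨1, (cnt16 1 i1).1⟩ ⟨2, (cnt16 2 i2).1⟩ ⟨3, (cnt16 3 i3).1⟩
    (show (1 : ℕ) ^^^ 2 = 3 by decide)
  rw [s3, s2, s1] at hr
  exact key_end _ (hA 1 i1) hr

end Pool.Agent.H54.Bryl
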