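import Mathlib

set_option autoImplicit false

/-! Vector matroids over `ZMod 2` on a finite ground set of natural numbers. -/

namespace Pool.Agent.H54.Bryl

open Set Submodule

variable {V : Type} [AddCommGroup V] [Module (ZMod 2) V] [FiniteDimensional (ZMod 2) V]

omit [FiniteDimensional (ZMod 2) V] in
theorem finrank_span_image (v : ℕ → V) {J : Set ℕ} (hJ : LinearIndepOn (ZMod 2) v J)
    (hJf : J.Finite) : Module.finrank (ZMod 2) (span (ZMod 2) (v '' J)) = J.ncard := by
  have := hJf.fintype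
  have h := finrank_span_eq_card hJ.linearIndependent
  rw [image_eq_range, h, Set.ncard_eq_toFinset_card', Set.toFinset_card]

/-- augmentation for linear independence -/
theorem aug (v : ℕ → V) {I J : Set ℕ} (hI : LinearIndepOn (ZMod 2) v I)
    (hJ : LinearIndepOn (ZMod 2) v J) (hIf : I.Finite) (hJf : J.Finite)
    (hc : I.ncard < J.ncard) : ∃ e ∈ J, e ∉ I ∧ LinearIndepOn (ZMod 2) v (insert e I) := by
  by_contra hcon
  push Not at hcon
  have hsub : ∀ e ∈ J, v e ∈ span (ZMod 2) (v '' I) := by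
    intro e he
    by_cases heI : e ∈ I
    · exact subset_span ⟨e, heI, rfl⟩
    · by_contra hns
      exact hcon e he heI (hI.insert hns)
  have hle : span (ZMod 2) (v '' J) ≤ span (ZMod 2) (v '' I) := by
    rw [span_le]
    rintro _ ⟨e, he, rfl⟩
    exact hsub e he
  have h1 := Submodule.finrank_mono hle
  rw [finrank_span_image v hJ hJf, finrank_span_image v hI hIf] at h1
  omega

/-- The vector matroid. -/
noncomputable def VM (E : Set ℕ) (hE : E.Finite) (v : ℕ → V) : Matroid ℕ :=
  (IndepMatroid.ofFinite hE (fun I => I ⊆ E ∧ LinearIndepOn (ZMod 2) v I)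
    ⟨empty_subset _, linearIndepOn_empty _ _⟩
    (fun _ _ hJ hIJ => ⟨hIJ.trans hJ.1, hJ.2.mono hIJ⟩)
    (fun I J hI hJ hc => by
      obtain ⟨e, he, heI, h⟩ := aug v hI.2 hJ.2 (hE.subset hI.1) (hE.subset hJ.1) hc
      exact ⟨e, he, heI, insert_subset (hJ.1 he) hI.1, h⟩)
    (fun _ hI => hI.1)).matroid

variable (E : Set ℕ) (hE : E.Finite) (v : ℕ → V)

@[simp] theorem VM_E : (VM E hE v).E = E := rfl

@[simp] theorem VM_indep (I : Set ℕ) :
    (VM E hE v).Indep I ↔ I ⊆ E ∧ LinearIndepOn (ZMod 2) v I := Iff.rfl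

theorem VM_finite : (VM E hE v).Finite := ⟨hE⟩

/-- A base spans. -/
theorem base_span {B : Set ℕ} (hB : (VM E hE v).IsBase B) :
    ∀ e ∈ E, v e ∈ span (ZMod 2) (v '' B) := by
  intro e he
  by_contra hns
  have hi : (VM E hE v).Indep B := hB.indep
  have hi' := (VM_indep E hE v B).1 hi
  have heB : e ∉ B := fun h => hns (subset_span ⟨e, h, rfl⟩)
  have hins : (VM E hE v).Indep (insert e B) :=
    (VM_indep E hE v _).2 ⟨insert_subset he hi'.1, hi'.2.insert hns⟩
  exact heB (hB.eq_of_subset_indep hins (subset_insert e B) ▸ mem_insert e B)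

/-- A spanning independent set is a base. -/
theorem base_of_span {B : Set ℕ} (hB : (VM E hE v).Indep B)
    (h : ∀ e ∈ E, v e ∈ span (ZMod 2) (v '' B)) : (VM E hE v).IsBase B := by
  rw [Matroid.isBase_iff_maximal_indep]
  refine ⟨hB, fun C hC hBC e heC => ?_⟩
  by_contra heB
  have hC' := (VM_indep E hE v C).1 hC
  have h2 : LinearIndepOn (ZMod 2) v (insert e B) := hC'.2.mono (insert_subset heC hBC)
  exact ((linearIndepOn_insert heB).1 h2).2 (h e (hC'.1 heC))

omit [FiniteDimensional (ZMod 2) V] in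
/-- Extension of an independent set inside `X` to one spanning `X`. -/
theorem exists_ext {X I : Set ℕ} (hI : LinearIndepOn (ZMod 2) v I) (hIX : I ⊆ X) :
    ∃ B, I ⊆ B ∧ B ⊆ X ∧ LinearIndepOn (ZMod 2) v B ∧
      ∀ e ∈ X, v e ∈ span (ZMod 2) (v '' B) := by
  obtain ⟨b, hbX, hIb, hsp, hlin⟩ := exists_linearIndepOn_extension hI hIX
  exact ⟨b, hIb, hbX, hlin, fun e he => hsp ⟨e, he, rfl⟩⟩

/-- (C1) a cocircuit is the complement of the kernel of a functional. -/
theorem cocircuit_functional {D : Set ℕ} (hD : (VM E hE v).IsCocircuit D) :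
    ∃ φ : V →ₗ[ZMod 2] ZMod 2, D = {e ∈ E | φ (v e) ≠ 0} := by
  have hDE : D ⊆ E := hD.subset_ground
  rw [Matroid.isCocircuit_iff_minimal] at hD
  -- span of E \ D is not everything
  have hex : ∃ e ∈ D, v e ∉ span (ZMod 2) (v '' (E \ D)) := by
    by_contra hcon
    push Not at hcon
    obtain ⟨B, -, hBX, hlin, hsp⟩ := exists_ext v (X := E \ D) (I := ∅)
      (linearIndepOn_empty _ _) (empty_subset _)
    have hle : span (ZMod 2) (v '' (E \ D)) ≤ span (ZMod 2) (v '' B) := by
      rw [span_le]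
      rintro _ ⟨e, he, rfl⟩
      exact hsp e he
    have hbase : (VM E hE v).IsBase B := by
      apply base_of_span E hE v
      · exact (VM_indep E hE v B).2 ⟨hBX.trans sdiff_subset, hlin⟩
      · intro e he
        by_cases heD : e ∈ D
        · exact hle (hcon e heD)
        · exact hsp e ⟨he, heD⟩
    obtain ⟨x, hxD, hxB⟩ := hD.1 B hbase
    exact (hBX hxB).2 hxD
  obtain ⟨e₀, he₀, hns⟩ := hex
  obtain ⟨φ, hφ, hker⟩ := Submodule.exists_le_ker_of_notMem hns
  refine ⟨φ, ?_⟩
  have hsubD : {e ∈ E | φ (v e) ≠ 0} ⊆ D := by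
    intro e he
    by_contra heD
    have : v e ∈ span (ZMod 2) (v '' (E \ D)) := subset_span ⟨e, ⟨he.1, heD⟩, rfl⟩
    exact he.2 (LinearMap.mem_ker.1 (hker this))
  have hmeet : ∀ B : Set ℕ, (VM E hE v).IsBase B → ({e ∈ E | φ (v e) ≠ 0} ∩ B).Nonempty := by
    intro B hB
    by_contra hcon
    rw [not_nonempty_iff_eq_empty] at hcon
    have hBker : span (ZMod 2) (v '' B) ≤ LinearMap.ker φ := by
      rw [span_le]
      rintro _ ⟨b, hb, rfl⟩
      by_contra hb0
      have hb1 : b ∈ {e ∈ E | φ (v e) ≠ 0} ∩ B :=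
        ⟨⟨hB.subset_ground hb, fun h => hb0 (LinearMap.mem_ker.2 h)⟩, hb⟩
      rw [hcon] at hb1
      exact hb1
    exact hφ (LinearMap.mem_ker.1 (hBker (base_span E hE v hB e₀ (hDE he₀))))
  exact Set.Subset.antisymm (hD.2 hmeet hsubD) hsubD

/-- (C2) converse, when the kernel of `φ` is spanned by the elements it contains. -/
theorem functional_cocircuit (φ : V →ₗ[ZMod 2] ZMod 2)
    (hne : ∃ e ∈ E, φ (v e) ≠ 0)
    (hker : ∀ x : V, φ x = 0 → x ∈ span (ZMod 2) (v '' {e ∈ E | φ (v e) = 0})) :
    (VM E hE v).IsCocircuit {e ∈ E | φ (v e) ≠ 0} := by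
  rw [Matroid.isCocircuit_iff_minimal]
  obtain ⟨e₀, he₀, hφ⟩ := hne
  refine ⟨?_, ?_⟩
  · intro B hB
    by_contra hcon
    rw [not_nonempty_iff_eq_empty] at hcon
    have hBker : span (ZMod 2) (v '' B) ≤ LinearMap.ker φ := by
      rw [span_le]
      rintro _ ⟨b, hb, rfl⟩
      by_contra hb0
      have hb1 : b ∈ {e ∈ E | φ (v e) ≠ 0} ∩ B :=
        ⟨⟨hB.subset_ground hb, fun h => hb0 (LinearMap.mem_ker.2 h)⟩, hb⟩
      rw [hcon] at hb1
      exact hb1
    exact hφ (LinearMap.mem_ker.1 (hBker (base_span E hE v hB e₀ he₀)))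
  · intro D hD hDsub
    by_contra hnot
    obtain ⟨e₁, he₁, he₁D⟩ := not_subset.1 hnot
    obtain ⟨B, -, hBX, hlin, hsp⟩ := exists_ext v (X := {e ∈ E | φ (v e) = 0}) (I := ∅)
      (linearIndepOn_empty _ _) (empty_subset _)
    have hle : ∀ x : V, φ x = 0 → x ∈ span (ZMod 2) (v '' B) := by
      intro x hx
      have h1 := hker x hx
      have h2 : span (ZMod 2) (v '' {e ∈ E | φ (v e) = 0}) ≤ span (ZMod 2) (v '' B) := by
        rw [span_le]
        rintro _ ⟨e, he, rfl⟩
        exact hsp e he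
      exact h2 h1
    have he₁B : e₁ ∉ B := fun h => he₁.2 (hBX h).2
    have hnotin : v e₁ ∉ span (ZMod 2) (v '' B) := by
      intro h
      have hBk : span (ZMod 2) (v '' B) ≤ LinearMap.ker φ := by
        rw [span_le]
        rintro _ ⟨b, hb, rfl⟩
        exact LinearMap.mem_ker.2 (hBX hb).2
      exact he₁.2 (LinearMap.mem_ker.1 (hBk h))
    have hbase : (VM E hE v).IsBase (insert e₁ B) := by
      apply base_of_span E hE v
      · refine (VM_indep E hE v _).2 ⟨insert_subset he₁.1 (hBX.trans fun x hx => hx.1), ?_⟩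
        exact hlin.insert hnotin
      · intro e he
        have hmono : span (ZMod 2) (v '' B) ≤ span (ZMod 2) (v '' (insert e₁ B)) :=
          span_mono (image_mono (subset_insert _ _))
        by_cases h0 : φ (v e) = 0
        · exact hmono (hle _ h0)
        · have h1 : φ (v e + v e₁) = 0 := by
            rw [map_add]
            have ha : φ (v e) = 1 := by
              have := Fin.isLt (φ (v e))
              revert h0
              generalize φ (v e) = a
              revert a
              decide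
            have hb : φ (v e₁) = 1 := by
              have h0' := he₁.2
              revert h0'
              generalize φ (v e₁) = a
              revert a
              decide
            rw [ha, hb]; decide
          have h2 := hmono (hle _ h1)
          have h3 : v e₁ ∈ span (ZMod 2) (v '' (insert e₁ B)) :=
            subset_span ⟨e₁, mem_insert _ _, rfl⟩
          have h4 := Submodule.sub_mem _ h2 h3
          simpa using h4
    obtain ⟨x, hxD, hxB⟩ := hD _ hbase
    rcases hxB with rfl | hxB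
    · exact he₁D hxD
    · exact (hDsub hxD).2 (hBX hxB).2

/-- A circuit has zero sum and a circuit-cocircuit intersection is even. -/
theorem circuit_sum {C : Set ℕ} (hC : (VM E hE v).IsCircuit C) :
    ∑ e ∈ (hE.subset hC.subset_ground).toFinset, v e = 0 := by
  classical
  have hCE : C ⊆ E := hC.subset_ground
  have hdep := (Matroid.dep_iff.1 (hC.dep)).1
  have hnl : ¬ LinearIndepOn (ZMod 2) v C := fun h => hdep ((VM_indep E hE v C).2 ⟨hCE, h⟩)
  rw [linearIndepOn_iff] at hnl
  push Not at hnl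
  obtain ⟨l, hl, hl0, hlne⟩ := hnl
  rw [Finsupp.mem_supported] at hl
  -- the support is dependent
  have hsupdep : (VM E hE v).Dep (l.support : Set ℕ) := by
    rw [Matroid.dep_iff]
    refine ⟨fun h => ?_, hl.trans hCE⟩
    have h2 := ((VM_indep E hE v _).1 h).2
    rw [linearIndepOn_iff] at h2
    exact hlne (h2 l ((Finsupp.mem_supported _ _).2 (Set.Subset.refl _)) hl0)
  have heq : (l.support : Set ℕ) = C := (Matroid.isCircuit_iff.1 hC).2 hsupdep hl
  have hfin : (hE.subset hC.subset_ground).toFinset = l.support := by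
    ext x
    rw [Set.Finite.mem_toFinset, ← heq]
    rfl
  rw [hfin, ← hl0, Finsupp.linearCombination_apply, Finsupp.sum]
  refine Finset.sum_congr rfl fun x hx => ?_
  have h1 : l x = 1 := by
    have h0 : l x ≠ 0 := Finsupp.mem_support_iff.1 hx
    revert h0
    generalize l x = a
    revert a
    decide
  rw [h1, one_smul]

theorem circuit_cocircuit_even {C D : Set ℕ} (hC : (VM E hE v).IsCircuit C)
    (hD : (VM E hE v).IsCocircuit D) : Even (C ∩ D).ncard := by
  classical
  obtain ⟨φ, hφ⟩ := cocircuit_functional E hE v hD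
  have hCE : C ⊆ E := hC.subset_ground
  have hs := circuit_sum E hE v hC
  have h1 := congrArg φ hs
  rw [map_sum, map_zero] at h1
  set F := (hE.subset hC.subset_ground).toFinset with hF
  have hFC : ∀ x, x ∈ F ↔ x ∈ C := fun x => by rw [hF, Set.Finite.mem_toFinset]
  have h2 : ∑ e ∈ F, φ (v e) = ((F.filter fun e => φ (v e) ≠ 0).card : ZMod 2) := by
    rw [Finset.card_filter, Nat.cast_sum]
    refine Finset.sum_congr rfl fun x _ => ?_
    generalize φ (v x) = a
    revert a
    decide
  rw [h2, ZMod.natCast_eq_zero_iff_even] at h1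
  have h3 : C ∩ D = ((F.filter fun e => φ (v e) ≠ 0 : Finset ℕ) : Set ℕ) := by
    ext x
    rw [hφ, Finset.coe_filter]
    constructor
    · rintro ⟨hx, hx2⟩
      exact ⟨(hFC x).2 hx, hx2.2⟩
    · rintro ⟨hx, hx2⟩
      exact ⟨(hFC x).1 hx, hCE ((hFC x).1 hx), hx2⟩
  rw [h3, Set.ncard_coe_finset]
  exact h1

end Pool.Agent.H54.Bryl
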